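import Pool.Agent.Y859.SF.Stm

/-!
# Project SF, file ES1U: an upper bound for the primes of odd exponent by Legendre's formula
-/

set_option autoImplicit false

namespace Pool.Agent.Y391.SF

open Finset Pool.Agent.Y859.SF

/-- the number of multiples of `d` in `(A, A + s]` -/
def mu (A s d : ℕ) : ℕ := ((Ioc A (A + s)).filter (fun j => d ∣ j)).card

theorem mu_eq (A s d : ℕ) : mu A s d + A / d = (A + s) / d := by
  have h1 := Nat.Ioc_filter_dvd_card_eq_div (A + s) d
  have h2 := Nat.Ioc_filter_dvd_card_eq_div A d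
  have h3 : Ioc 0 (A + s) = Ioc 0 A ∪ Ioc A (A + s) := by
    rw [Finset.Ioc_union_Ioc_eq_Ioc (Nat.zero_le _) (Nat.le_add_right _ _)]
  have h4 : Disjoint (Ioc 0 A) (Ioc A (A + s)) := by
    rw [Finset.disjoint_left]
    intro x hx hx'
    rw [Finset.mem_Ioc] at hx hx'
    omega
  rw [h3, Finset.filter_union, Finset.card_union_of_disjoint
    (Finset.disjoint_filter_filter h4)] at h1
  unfold mu
  omega

theorem mu_ge (A s d : ℕ) : s / d ≤ mu A s d := by
  have h1 := mu_eq A s d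
  have h2 : A / d + s / d ≤ (A + s) / d := Nat.div_add_div_le_add_div
  omega

theorem mu_le (A s d : ℕ) (hd : 0 < d) : mu A s d ≤ s / d + 1 := by
  have h1 := mu_eq A s d
  have h2 := Nat.add_div (a := A) (b := s) hd
  split_ifs at h2 <;> omega

theorem oddp_le_mu (A s p : ℕ) (hp : p.Prime) : oddp A s p ≤ mu A s p := by
  unfold oddp mu
  apply Finset.card_le_card
  intro j hj
  rw [Finset.mem_filter, Finset.mem_Ioc] at hj ⊢
  refine ⟨hj.1, ?_⟩
  have h0 : j ≠ 0 := by omega
  have h1 : 1 ≤ j.factorization p := hj.2.pos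
  have := (hp.pow_dvd_iff_le_factorization h0).mpr h1
  simpa using this

theorem oddp_le (A s p : ℕ) (hp : p.Prime) :
    oddp A s p + mu A s (p ^ 2) ≤ mu A s p + mu A s (p ^ 3) := by
  classical
  set S1 := (Ioc A (A + s)).filter (fun j => p ∣ j) with hS1
  set S2 := (Ioc A (A + s)).filter (fun j => p ^ 2 ∣ j) with hS2
  set S3 := (Ioc A (A + s)).filter (fun j => p ^ 3 ∣ j) with hS3
  have h12 : S2 ⊆ S1 := by
    intro j hj
    rw [hS2, Finset.mem_filter] at hj
    rw [hS1, Finset.mem_filter]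
    exact ⟨hj.1, (dvd_pow_self p (by norm_num)).trans hj.2⟩
  have hsub : (Ioc A (A + s)).filter (fun j => Odd (j.factorization p)) ⊆ (S1 \ S2) ∪ S3 := by
    intro j hj
    rw [Finset.mem_filter, Finset.mem_Ioc] at hj
    have h0 : j ≠ 0 := by omega
    have hj' : j ∈ Ioc A (A + s) := Finset.mem_Ioc.mpr hj.1
    rw [Finset.mem_union, Finset.mem_sdiff, hS1, hS2, hS3, Finset.mem_filter, Finset.mem_filter,
      Finset.mem_filter]
    have e1 : p ∣ j ↔ 1 ≤ j.factorization p := by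
      have := hp.pow_dvd_iff_le_factorization (k := 1) h0
      rwa [pow_one] at this
    rw [e1, hp.pow_dvd_iff_le_factorization h0, hp.pow_dvd_iff_le_factorization h0]
    have hodd := hj.2
    rcases Nat.lt_or_ge (j.factorization p) 3 with h | h
    · left
      have : j.factorization p = 1 := by
        obtain ⟨r, hr⟩ := hodd
        omega
      exact ⟨⟨hj', by omega⟩, fun hh => by omega⟩
    · right
      exact ⟨hj', h⟩
  have hc := Finset.card_le_card hsub
  have hu := Finset.card_union_le (S1 \ S2) S3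
  have hs := Finset.card_sdiff_add_card_eq_card h12
  have e0 : oddp A s p = ((Ioc A (A + s)).filter (fun j => Odd (j.factorization p))).card := rfl
  have e1 : mu A s p = S1.card := rfl
  have e2 : mu A s (p ^ 2) = S2.card := rfl
  have e3 : mu A s (p ^ 3) = S3.card := rfl
  omega

theorem legendre (s p : ℕ) (hp : p.Prime) :
    s / p + s / p ^ 2 + s / p ^ 3 ≤ (s.factorial).factorization p := by
  have h := Nat.factorization_factorial hp (n := s) (b := Nat.log p s + 4) (by omega)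
  rw [h]
  have hsub : Ico 1 4 ⊆ Ico 1 (Nat.log p s + 4) := by
    intro i hi
    rw [Finset.mem_Ico] at hi ⊢
    omega
  have h2 : ∑ i ∈ Ico 1 4, s / p ^ i ≤ ∑ i ∈ Ico 1 (Nat.log p s + 4), s / p ^ i :=
    Finset.sum_le_sum_of_subset hsub
  refine le_trans (le_of_eq ?_) h2
  simp [Finset.sum_Ico_eq_sum_range, Finset.sum_range_succ]

/-- the bound for one prime -/
theorem one_prime (A s p : ℕ) (hp : p.Prime) :
    oddp A s p + 2 * (s / p ^ 2) ≤ (s.factorial).factorization p + 1 +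
      (if p ^ 2 ≤ s then 1 else 0) := by
  have hL := legendre s p hp
  have hp0 : 0 < p := hp.pos
  by_cases h : p ^ 2 ≤ s
  · rw [if_pos h]
    have h1 := oddp_le A s p hp
    have h2 := mu_ge A s (p ^ 2)
    have h3 := mu_le A s p hp0
    have h4 := mu_le A s (p ^ 3) (by positivity)
    omega
  · rw [if_neg h]
    have h1 := oddp_le_mu A s p hp
    have h3 := mu_le A s p hp0
    have h5 : s / p ^ 2 = 0 := Nat.div_eq_of_lt (by omega)
    have h6 : s / p ≤ (s.factorial).factorization p :=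
      le_trans (le_trans (Nat.le_add_right _ _) (Nat.le_add_right _ _)) hL
    omega

/-- the primes up to `s` -/
def pr (s : ℕ) : Finset ℕ := (Icc 1 s).filter Nat.Prime

theorem log_fact (s : ℕ) :
    ∑ p ∈ pr s, (((s.factorial).factorization p : ℕ) : ℝ) * Real.log p =
      Real.log (s.factorial) := by
  rw [Real.log_nat_eq_sum_factorization]
  symm
  apply Finsupp.sum_of_support_subset
  · intro p hp
    rw [Nat.support_factorization, Nat.mem_primeFactors] at hp
    rw [pr, Finset.mem_filter, Finset.mem_Icc]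
    exact ⟨⟨hp.1.one_le, (hp.1.dvd_factorial).mp hp.2.1⟩, hp.1⟩
  · intro p _
    simp

theorem theta_eq (s : ℕ) : ∑ p ∈ pr s, Real.log p = Chebyshev.theta s := by
  rw [Chebyshev.theta]
  apply Finset.sum_congr _ (fun _ _ => rfl)
  ext p
  simp only [pr, Finset.mem_filter, Finset.mem_Icc, Finset.mem_Ioc, Nat.floor_natCast]
  constructor
  · rintro ⟨⟨h1, h2⟩, h3⟩
    exact ⟨⟨by omega, h2⟩, h3⟩
  · rintro ⟨⟨h1, h2⟩, h3⟩
    exact ⟨⟨by omega, h2⟩, h3⟩

theorem small_sum (s : ℕ) (hs : 1 ≤ s) :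
    ∑ p ∈ pr s, (if p ^ 2 ≤ s then (1 : ℝ) else 0) * Real.log p ≤
      Real.sqrt s * Real.log s := by
  have hle : ∀ p ∈ pr s, (if p ^ 2 ≤ s then (1 : ℝ) else 0) * Real.log p ≤
      (if p ≤ Nat.sqrt s then Real.log s else 0) := by
    intro p hp
    rw [pr, Finset.mem_filter, Finset.mem_Icc] at hp
    by_cases h : p ^ 2 ≤ s
    · have h' : p ≤ Nat.sqrt s := by
        rw [Nat.le_sqrt]
        nlinarith
      rw [if_pos h, if_pos h', one_mul]
      apply Real.log_le_log
      · exact_mod_cast hp.2.pos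
      · exact_mod_cast hp.1.2
    · rw [if_neg h, zero_mul]
      split_ifs
      · apply Real.log_nonneg
        exact_mod_cast hs
      · exact le_rfl
  refine (Finset.sum_le_sum hle).trans ?_
  rw [← Finset.sum_filter, Finset.sum_const, nsmul_eq_mul]
  apply mul_le_mul_of_nonneg_right _ (Real.log_nonneg (by exact_mod_cast hs))
  have hc : ((pr s).filter (fun p => p ≤ Nat.sqrt s)).card ≤ Nat.sqrt s := by
    have : (pr s).filter (fun p => p ≤ Nat.sqrt s) ⊆ Icc 1 (Nat.sqrt s) := by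
      intro p hp
      rw [Finset.mem_filter, pr, Finset.mem_filter, Finset.mem_Icc] at hp
      rw [Finset.mem_Icc]
      exact ⟨hp.1.1.1, hp.2⟩
    have := Finset.card_le_card this
    rwa [Nat.card_Icc, Nat.add_sub_cancel] at this
  have h2 : ((Nat.sqrt s : ℕ) : ℝ) ≤ Real.sqrt s := Real.nat_sqrt_le_real_sqrt
  exact le_trans (by exact_mod_cast hc) h2

theorem gain (s : ℕ) (hs : 7 ≤ s) :
    (79 / 100 + 7 / 1000) * (s : ℝ) - 2 * (Real.log 2 + Real.log 3 + Real.log 5 + Real.log 7) ≤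
      ∑ p ∈ pr s, 2 * (((s / p ^ 2 : ℕ) : ℝ)) * Real.log p := by
  have hsub : ({2, 3, 5, 7} : Finset ℕ) ⊆ pr s := by
    intro p hp
    rw [pr, Finset.mem_filter, Finset.mem_Icc]
    simp only [Finset.mem_insert, Finset.mem_singleton] at hp
    rcases hp with h | h | h | h <;> subst h <;> refine ⟨⟨by norm_num, by omega⟩, by norm_num⟩
  have h1 : ∑ p ∈ ({2, 3, 5, 7} : Finset ℕ), 2 * (((s / p ^ 2 : ℕ) : ℝ)) * Real.log p ≤
      ∑ p ∈ pr s, 2 * (((s / p ^ 2 : ℕ) : ℝ)) * Real.log p := by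
    apply Finset.sum_le_sum_of_subset_of_nonneg hsub
    intro p hp _
    rw [pr, Finset.mem_filter] at hp
    have : 0 ≤ Real.log p := Real.log_nonneg (by exact_mod_cast hp.2.one_le)
    positivity
  refine le_trans ?_ h1
  rw [Finset.sum_insert (by norm_num), Finset.sum_insert (by norm_num),
    Finset.sum_insert (by norm_num), Finset.sum_singleton]
  have hfl : ∀ d : ℕ, 0 < d → (s : ℝ) / d - 1 ≤ ((s / d : ℕ) : ℝ) := by
    intro d hd
    have h := Nat.lt_div_mul_add (a := s) hd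
    have h' : (s : ℝ) < ((s / d : ℕ) : ℝ) * d + d := by exact_mod_cast h
    have hd' : (0 : ℝ) < d := by exact_mod_cast hd
    rw [sub_le_iff_le_add, div_le_iff₀ hd']
    nlinarith
  have a2 := hfl (2 ^ 2) (by norm_num)
  have a3 := hfl (3 ^ 2) (by norm_num)
  have a5 := hfl (5 ^ 2) (by norm_num)
  have a7 := hfl (7 ^ 2) (by norm_num)
  push_cast at a2 a3 a5 a7 ⊢
  have l2 : (0.6931 : ℝ) < Real.log 2 := by
    have := Real.log_two_gt_d9
    linarith
  have l3 : (1.0974 : ℝ) < Real.log 3 := by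
    have h : Real.log ((2 : ℝ) ^ 19) < Real.log ((3 : ℝ) ^ 12) := by
      apply Real.log_lt_log <;> norm_num
    rw [Real.log_pow, Real.log_pow] at h
    push_cast at h
    have := Real.log_two_gt_d9
    linarith
  have l5 : (1.5994 : ℝ) < Real.log 5 := by
    have h : Real.log ((2 : ℝ) ^ 30) < Real.log ((5 : ℝ) ^ 13) := by
      apply Real.log_lt_log <;> norm_num
    rw [Real.log_pow, Real.log_pow] at h
    push_cast at h
    have := Real.log_two_gt_d9
    linarith
  have l7 : (1.9406 : ℝ) < Real.log 7 := by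
    have h : Real.log ((2 : ℝ) ^ 14) < Real.log ((7 : ℝ) ^ 5) := by
      apply Real.log_lt_log <;> norm_num
    rw [Real.log_pow, Real.log_pow] at h
    push_cast at h
    have := Real.log_two_gt_d9
    linarith
  have hs0 : (0 : ℝ) ≤ s := Nat.cast_nonneg s
  have b2 : (s : ℝ) / 2 ^ 2 * Real.log 2 - Real.log 2 ≤
      (((s / 2 ^ 2 : ℕ) : ℝ)) * Real.log 2 := by
    have := mul_le_mul_of_nonneg_right a2 (by linarith : (0 : ℝ) ≤ Real.log 2)
    linarith
  have b3 : (s : ℝ) / 3 ^ 2 * Real.log 3 - Real.log 3 ≤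
      (((s / 3 ^ 2 : ℕ) : ℝ)) * Real.log 3 := by
    have := mul_le_mul_of_nonneg_right a3 (by linarith : (0 : ℝ) ≤ Real.log 3)
    linarith
  have b5 : (s : ℝ) / 5 ^ 2 * Real.log 5 - Real.log 5 ≤
      (((s / 5 ^ 2 : ℕ) : ℝ)) * Real.log 5 := by
    have := mul_le_mul_of_nonneg_right a5 (by linarith : (0 : ℝ) ≤ Real.log 5)
    linarith
  have b7 : (s : ℝ) / 7 ^ 2 * Real.log 7 - Real.log 7 ≤
      (((s / 7 ^ 2 : ℕ) : ℝ)) * Real.log 7 := by
    have := mul_le_mul_of_nonneg_right a7 (by linarith : (0 : ℝ) ≤ Real.log 7)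
    linarith
  have c2 : (s : ℝ) / 2 ^ 2 * 0.6931 ≤ (s : ℝ) / 2 ^ 2 * Real.log 2 :=
    mul_le_mul_of_nonneg_left l2.le (by positivity)
  have c3 : (s : ℝ) / 3 ^ 2 * 1.0974 ≤ (s : ℝ) / 3 ^ 2 * Real.log 3 :=
    mul_le_mul_of_nonneg_left l3.le (by positivity)
  have c5 : (s : ℝ) / 5 ^ 2 * 1.5994 ≤ (s : ℝ) / 5 ^ 2 * Real.log 5 :=
    mul_le_mul_of_nonneg_left l5.le (by positivity)
  have c7 : (s : ℝ) / 7 ^ 2 * 1.9406 ≤ (s : ℝ) / 7 ^ 2 * Real.log 7 :=
    mul_le_mul_of_nonneg_left l7.le (by positivity)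
  linarith

theorem eventually_small (C : ℝ) : ∃ s₀ : ℕ, ∀ s : ℕ, s₀ ≤ s →
    Real.sqrt s * Real.log s + C ≤ 5 / 1000 * s := by
  have h1 : (fun x : ℝ => Real.log x) =o[Filter.atTop] fun x : ℝ => x ^ (1 / 2 : ℝ) :=
    isLittleO_log_rpow_atTop (by norm_num)
  have h2 := h1.def (c := 2 / 1000) (by norm_num)
  rw [Filter.eventually_atTop] at h2
  obtain ⟨x₀, hx₀⟩ := h2
  refine ⟨max (max ⌈x₀⌉₊ 1) ⌈1000 * |C|⌉₊, fun s hs => ?_⟩
  have hsx : x₀ ≤ s := by
    have : ⌈x₀⌉₊ ≤ s := (le_max_left _ _).trans ((le_max_left _ _).trans hs)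
    exact (Nat.le_ceil x₀).trans (by exact_mod_cast this)
  have hs1 : 1 ≤ s := (le_max_right _ _).trans ((le_max_left _ _).trans hs)
  have hsC : 1000 * |C| ≤ s := by
    have : ⌈1000 * |C|⌉₊ ≤ s := (le_max_right _ _).trans hs
    exact (Nat.le_ceil _).trans (by exact_mod_cast this)
  have hs1' : (1 : ℝ) ≤ s := by exact_mod_cast hs1
  have h3 := hx₀ s hsx
  rw [← Real.sqrt_eq_rpow, Real.norm_of_nonneg (Real.log_nonneg hs1'),
    Real.norm_of_nonneg (Real.sqrt_nonneg _)] at h3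
  have h4 : Real.sqrt s * Real.log s ≤ 2 / 1000 * s := by
    have h5 := mul_le_mul_of_nonneg_left h3 (Real.sqrt_nonneg (s : ℝ))
    have h6 : Real.sqrt (s : ℝ) * Real.sqrt s = s := Real.mul_self_sqrt (by positivity)
    calc Real.sqrt s * Real.log s ≤ Real.sqrt s * (2 / 1000 * Real.sqrt s) := h5
      _ = 2 / 1000 * (Real.sqrt s * Real.sqrt s) := by ring
      _ = 2 / 1000 * s := by rw [h6]
  have h7 : C ≤ |C| := le_abs_self C
  linarith

theorem t_ES1U (hp : S_PNT) : S_ES1U := by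
  have h1 : ∀ᶠ x : ℝ in Filter.atTop, Chebyshev.theta x / x < 1001 / 1000 :=
    hp.eventually_lt_const (by norm_num)
  rw [Filter.eventually_atTop] at h1
  obtain ⟨x₀, hx₀⟩ := h1
  obtain ⟨s₁, hs₁⟩ := eventually_small
    (2 * (Real.log 2 + Real.log 3 + Real.log 5 + Real.log 7))
  refine ⟨max (max ⌈x₀⌉₊ 7) s₁, fun A s hs => ?_⟩
  have hsx : x₀ ≤ s := by
    have : ⌈x₀⌉₊ ≤ s := (le_max_left _ _).trans ((le_max_left _ _).trans hs)
    exact (Nat.le_ceil x₀).trans (by exact_mod_cast this)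
  have hs7 : 7 ≤ s := (le_max_right _ _).trans ((le_max_left _ _).trans hs)
  have hss : s₁ ≤ s := (le_max_right _ _).trans hs
  have hspos : (0 : ℝ) < s := by
    have : 0 < s := by omega
    exact_mod_cast this
  have hth : Chebyshev.theta s ≤ 1001 / 1000 * s := by
    have := hx₀ s hsx
    rw [div_lt_iff₀ hspos] at this
    exact this.le
  have hsm := hs₁ s hss
  have hone : ∀ p ∈ pr s, (oddp A s p : ℝ) * Real.log p ≤
      (((s.factorial).factorization p : ℕ) : ℝ) * Real.log p + Real.log p +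
      (if p ^ 2 ≤ s then (1 : ℝ) else 0) * Real.log p -
      2 * (((s / p ^ 2 : ℕ) : ℝ)) * Real.log p := by
    intro p hpm
    rw [pr, Finset.mem_filter] at hpm
    have h := one_prime A s p hpm.2
    have h' : (oddp A s p : ℝ) + 2 * ((s / p ^ 2 : ℕ) : ℝ) ≤
        (((s.factorial).factorization p : ℕ) : ℝ) + 1 + (if p ^ 2 ≤ s then (1 : ℝ) else 0) := by
      by_cases hps : p ^ 2 ≤ s
      · rw [if_pos hps] at h ⊢
        exact_mod_cast h
      · rw [if_neg hps] at h ⊢
        exact_mod_cast h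
    have hl : 0 ≤ Real.log p := Real.log_nonneg (by exact_mod_cast hpm.2.one_le)
    have := mul_le_mul_of_nonneg_right h' hl
    linarith
  have hsum := Finset.sum_le_sum hone
  rw [Finset.sum_sub_distrib, Finset.sum_add_distrib, Finset.sum_add_distrib, log_fact,
    theta_eq] at hsum
  have hsmall := small_sum s (by omega)
  have hgain := gain s hs7
  have hgoal : ∑ p ∈ (Icc 1 s).filter Nat.Prime, (oddp A s p : ℝ) * Real.log p =
      ∑ p ∈ pr s, (oddp A s p : ℝ) * Real.log p := rfl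
  rw [hgoal]
  linarith

end Pool.Agent.Y391.SF
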